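import Pool.Agent.V7H41.CC.Spec

open Finset

namespace Pool.Agent.V7H39.CC

open Pool.Agent.V7H41.CC

/-- spine position -/
def ps (n k : ℕ) : ℕ := min (k - 1) (n - 3)

abbrev VV (n : ℕ) := Fin n ⊕ Fin (n - 2)

def adj {n : ℕ} (σ : Equiv.Perm (Fin n)) : VV n → VV n → Prop
  | .inl _, .inl _ => False
  | .inl i, .inr s => (s : ℕ) = ps n (σ i)
  | .inr s, .inl i => (s : ℕ) = ps n (σ i)
  | .inr s, .inr t => (s : ℕ) + 1 = t ∨ (t : ℕ) + 1 = s

def GG {n : ℕ} (σ : Equiv.Perm (Fin n)) : SimpleGraph (VV n) where
  Adj := adj σ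
  symm := ⟨by
    rintro (i | s) (j | t) h
    · exact h
    · exact h
    · exact h
    · exact Or.symm h⟩
  loopless := ⟨by
    rintro (i | s) h
    · exact h
    · simp only [adj] at h
      omega⟩

theorem GG_adj {n : ℕ} (σ : Equiv.Perm (Fin n)) (x y : VV n) : (GG σ).Adj x y ↔ adj σ x y :=
  Iff.rfl

theorem deg_leaf {n : ℕ} (hn : 4 ≤ n) (σ : Equiv.Perm (Fin n)) (i : Fin n) :
    ((GG σ).neighborSet (.inl i)).ncard = 1 := by
  rw [Set.ncard_eq_one]
  have hp : ps n (σ i) < n - 2 := by unfold ps; omega
  refine ⟨.inr ⟨ps n (σ i), hp⟩, ?_⟩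
  ext (j | s)
  · simp [SimpleGraph.mem_neighborSet, GG_adj, adj]
  · simp [SimpleGraph.mem_neighborSet, GG_adj, adj, Fin.ext_iff]

theorem deg_spine {n : ℕ} (hn : 4 ≤ n) (σ : Equiv.Perm (Fin n)) (s : Fin (n - 2)) :
    ((GG σ).neighborSet (.inr s)).ncard = 3 := by
  rw [Set.ncard_eq_three]
  have hs := s.2
  by_cases h0 : (s : ℕ) = 0
  · refine ⟨.inl (σ.symm ⟨0, by omega⟩), .inl (σ.symm ⟨1, by omega⟩), .inr ⟨1, by omega⟩,
      ?_, by simp, by simp, ?_⟩
    · simp
    · ext (j | t)
      · simp only [SimpleGraph.mem_neighborSet, GG_adj, adj, ps, Set.mem_insert_iff, Sum.inl.injEq,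
          Equiv.eq_symm_apply, Fin.ext_iff, Set.mem_singleton_iff, reduceCtorEq, or_false]
        omega
      · simp only [SimpleGraph.mem_neighborSet, GG_adj, adj, Set.mem_insert_iff, Sum.inr.injEq,
          Fin.ext_iff, Set.mem_singleton_iff, reduceCtorEq, false_or]
        omega
  · by_cases h1 : (s : ℕ) = n - 3
    · refine ⟨.inl (σ.symm ⟨n - 2, by omega⟩), .inl (σ.symm ⟨n - 1, by omega⟩),
        .inr ⟨n - 4, by omega⟩, ?_, by simp, by simp, ?_⟩
      · simp only [ne_eq, Sum.inl.injEq, EmbeddingLike.apply_eq_iff_eq, Fin.mk.injEq]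
        omega
      · ext (j | t)
        · have := (σ j).2
          simp only [SimpleGraph.mem_neighborSet, GG_adj, adj, ps, Set.mem_insert_iff,
            Sum.inl.injEq, Equiv.eq_symm_apply, Fin.ext_iff, Set.mem_singleton_iff, reduceCtorEq,
            or_false]
          omega
        · have := t.2
          simp only [SimpleGraph.mem_neighborSet, GG_adj, adj, Set.mem_insert_iff, Sum.inr.injEq,
            Fin.ext_iff, Set.mem_singleton_iff, reduceCtorEq, false_or]
          omega
    · refine ⟨.inl (σ.symm ⟨s + 1, by omega⟩), .inr ⟨s - 1, by omega⟩,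
        .inr ⟨s + 1, by omega⟩, by simp, by simp, ?_, ?_⟩
      · simp only [ne_eq, Sum.inr.injEq, Fin.mk.injEq]
        omega
      · ext (j | t)
        · have := (σ j).2
          simp only [SimpleGraph.mem_neighborSet, GG_adj, adj, ps, Set.mem_insert_iff,
            Sum.inl.injEq, Equiv.eq_symm_apply, Fin.ext_iff, Set.mem_singleton_iff, reduceCtorEq,
            or_false]
          omega
        · have := t.2
          simp only [SimpleGraph.mem_neighborSet, GG_adj, adj, Set.mem_insert_iff, Sum.inr.injEq,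
            Fin.ext_iff, Set.mem_singleton_iff, reduceCtorEq, false_or]
          omega

theorem conn {n : ℕ} (hn : 4 ≤ n) (σ : Equiv.Perm (Fin n)) : (GG σ).Connected := by
  have h0 : 0 < n - 2 := by omega
  have key : ∀ k (hk : k < n - 2), (GG σ).Reachable (.inr ⟨0, h0⟩) (.inr ⟨k, hk⟩) := by
    intro k
    induction k with
    | zero => intro hk; exact SimpleGraph.Reachable.refl _
    | succ k ih =>
      intro hk
      refine (ih (by omega)).trans (SimpleGraph.Adj.reachable ?_)
      rw [GG_adj]
      simp [adj]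
  rw [SimpleGraph.connected_iff_exists_forall_reachable]
  refine ⟨.inr ⟨0, h0⟩, ?_⟩
  rintro (i | s)
  · have hp : ps n (σ i) < n - 2 := by unfold ps; omega
    refine (key _ hp).trans (SimpleGraph.Adj.reachable ?_)
    rw [GG_adj]
    simp [adj]
  · exact key s.1 s.2

theorem tree {n : ℕ} (hn : 4 ≤ n) (σ : Equiv.Perm (Fin n)) : (GG σ).IsTree := by
  classical
  rw [SimpleGraph.isTree_iff_connected_and_card]
  refine ⟨conn hn σ, ?_⟩
  have : DecidableRel (GG σ).Adj := Classical.decRel _
  have h := SimpleGraph.sum_degrees_eq_twice_card_edges (GG σ)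
  have hd : ∀ v, (GG σ).degree v = ((GG σ).neighborSet v).ncard := by
    intro v
    rw [← SimpleGraph.card_neighborSet_eq_degree, Set.ncard_eq_toFinset_card', Set.toFinset_card]
  rw [Fintype.sum_sum_type] at h
  simp only [hd, deg_leaf hn, deg_spine hn, sum_const, card_univ, Fintype.card_fin] at h
  rw [Nat.card_eq_fintype_card, Nat.card_eq_fintype_card, ← SimpleGraph.edgeFinset_card]
  simp only [Fintype.card_sum, Fintype.card_fin]
  simp only [smul_eq_mul] at h
  omega

theorem walk_mem {n : ℕ} (σ : Equiv.Perm (Fin n)) (h : VV n → ℕ)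
    (hl : ∀ i, h (.inl i) = ps n (σ i)) (hr : ∀ s, h (.inr s) = (s : ℕ)) (s : Fin (n - 2)) :
    ∀ (x y : VV n) (w : (GG σ).Walk x y), x ≠ y →
      ((h x ≤ s ∧ (s : ℕ) ≤ h y) ∨ (h y ≤ s ∧ (s : ℕ) ≤ h x)) → (.inr s : VV n) ∈ w.support := by
  intro x y w
  induction w with
  | nil => intro hne; exact absurd rfl hne
  | @cons x z y hadj w ih =>
    intro hne hs
    rw [SimpleGraph.Walk.support_cons, List.mem_cons]
    rw [GG_adj] at hadj
    by_cases hsx : (.inr s : VV n) = x
    · exact Or.inl hsx
    right
    by_cases hsz : (.inr s : VV n) = z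
    · rw [hsz]; exact w.start_mem_support
    have hx : h x ≠ s := by
      intro e
      rcases x with i | t
      · rcases z with j | u
        · exact hadj
        · simp only [adj] at hadj
          rw [hl] at e
          exact hsz (by rw [Sum.inr.injEq, Fin.ext_iff]; omega)
      · rw [hr] at e
        exact hsx (by rw [Sum.inr.injEq, Fin.ext_iff]; omega)
    have hz : (h x ≤ s ∧ h z ≤ s) ∨ ((s : ℕ) ≤ h x ∧ (s : ℕ) ≤ h z) := by
      rcases x with i | t
      · rcases z with j | u
        · exact absurd hadj (by simp [adj])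
        · simp only [adj] at hadj
          rw [hl, hr]
          omega
      · rcases z with j | u
        · simp only [adj] at hadj
          rw [hl, hr]
          omega
        · simp only [adj] at hadj
          rw [hr, hr] at *
          have h1 : (s : ℕ) ≠ t := fun e => hsx (by rw [Sum.inr.injEq, Fin.ext_iff]; exact e)
          omega
    by_cases hzy : z = y
    · exfalso
      subst hzy
      have h3 : h z ≠ s := by
        intro e
        rcases z with j | u
        · rcases x with i | t
          · exact hadj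
          · simp only [adj] at hadj
            rw [hl] at e
            exact hsx (by rw [Sum.inr.injEq, Fin.ext_iff]; omega)
        · rw [hr] at e
          exact hsz (by rw [Sum.inr.injEq, Fin.ext_iff]; omega)
      omega
    · exact ih hzy (by omega)

theorem t_CONC : S_CONC := by
  intro n σ hn
  classical
  let T : PhyloTree n :=
    { V := VV n
      finite := inferInstance
      G := GG σ
      leaf := Sum.inl
      isTree := tree hn σ
      leaf_inj := Sum.inl_injective
      degree := by
        rintro (i | s)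
        · exact Or.inl (deg_leaf hn σ i)
        · exact Or.inr (deg_spine hn σ s)
      isLeaf := by
        rintro (i | s)
        · exact ⟨fun _ => deg_leaf hn σ i, fun _ => ⟨i, rfl⟩⟩
        · refine ⟨?_, ?_⟩
          · rintro ⟨i, hi⟩
            exact absurd hi (by simp)
          · intro h
            rw [deg_spine hn σ s] at h
            omega }
  refine ⟨T, ?_, ?_⟩
  · refine ⟨n - 2, ⟨?_⟩⟩
    refine
      { toFun := fun v => match v with
          | ⟨.inl i, hv⟩ => absurd rfl (hv i)
          | ⟨.inr s, _⟩ => s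
        invFun := fun s => ⟨.inr s, fun i => by simp [T]⟩
        left_inv := ?_
        right_inv := ?_
        map_rel_iff' := ?_ }
    · rintro ⟨i | s, hv⟩
      · exact absurd rfl (hv i)
      · rfl
    · intro s; rfl
    · rintro ⟨i | s, hv⟩ ⟨j | t, hw⟩
      · exact absurd rfl (hv i)
      · exact absurd rfl (hv i)
      · exact absurd rfl (hw j)
      · simp only [Equiv.coe_fn_mk, SimpleGraph.comap_adj, Function.Embedding.subtype_apply]
        rw [SimpleGraph.pathGraph_adj]
        rfl
  · intro P hP A hA B hB hAB hA2 hB2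
    by_contra hsep
    let h : VV n → ℕ := fun v => match v with
      | .inl i => ps n (σ i)
      | .inr s => (s : ℕ)
    have key : ∀ C : Finset (Fin n), ∀ a ∈ C, ∀ b ∈ C, a ≠ b → ∀ s : Fin (n - 2),
        (ps n (σ a) ≤ s ∧ (s : ℕ) ≤ ps n (σ b)) → (.inr s : VV n) ∈ T.span C := by
      intro C a ha b hb hab s hs
      obtain ⟨w, hw⟩ := (conn hn σ).exists_isPath (.inl a) (.inl b)
      refine ⟨a, ha, b, hb, w, hw, ?_⟩
      exact walk_mem σ h (fun _ => rfl) (fun _ => rfl) s _ _ w (by simpa using hab) (Or.inl hs)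
    have ext : ∀ C : Finset (Fin n), 2 ≤ C.card → ∃ a ∈ C, ∃ b ∈ C, a ≠ b ∧
        ∀ x ∈ C, (σ a : ℕ) ≤ σ x ∧ (σ x : ℕ) ≤ σ b := by
      intro C hC
      have hne : C.Nonempty := Finset.card_pos.1 (by omega)
      obtain ⟨a, ha, ha'⟩ := C.exists_min_image (fun x => (σ x : ℕ)) hne
      obtain ⟨b, hb, hb'⟩ := C.exists_max_image (fun x => (σ x : ℕ)) hne
      refine ⟨a, ha, b, hb, ?_, fun x hx => ⟨ha' x hx, hb' x hx⟩⟩
      rintro rfl
      have : C ⊆ {a} := by
        intro x hx
        rw [Finset.mem_singleton]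
        have h1 := ha' x hx
        have h2 := hb' x hx
        have h3 : (σ x : ℕ) = σ a := le_antisymm h2 h1
        exact σ.injective (Fin.ext h3)
      have := Finset.card_le_card this
      simp at this
      omega
    obtain ⟨a, ha, a', ha', haa, hAx⟩ := ext A hA2
    obtain ⟨b, hb, b', hb', hbb, hBx⟩ := ext B hB2
    have h1 : (σ a : ℕ) ≤ σ b' := by
      by_contra hlt
      apply hsep
      right
      intro x hx y hy
      have := (hAx x hx).1
      have := (hBx y hy).2
      show (σ y : ℕ) < σ x
      omega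
    have h2 : (σ b : ℕ) ≤ σ a' := by
      by_contra hlt
      apply hsep
      left
      intro x hx y hy
      have := (hAx x hx).2
      have := (hBx y hy).1
      show (σ x : ℕ) < σ y
      omega
    have h3 := (hAx a' ha').1
    have h4 := (hBx b' hb').1
    have hdis := hP A hA B hB hAB
    have hs : max (ps n (σ a)) (ps n (σ b)) < n - 2 := by unfold ps; omega
    have m1 := key A a ha a' ha' haa ⟨_, hs⟩ (by simp only [ps]; omega)
    have m2 := key B b hb b' hb' hbb ⟨_, hs⟩ (by simp only [ps]; omega)
    exact Set.disjoint_left.1 hdis m1 m2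

end Pool.Agent.V7H39.CC
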