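import Pool.Agent.V7H41.CC.Spec

open Finset

namespace Pool.Agent.V7H39.CC

open Pool.Agent.V7H41.CC

theorem four {V : Type} [Finite V] (G : SimpleGraph V) (v : V) (h : (G.neighborSet v).ncard ≤ 3)
    (a b c d : V) (ha : G.Adj v a) (hb : G.Adj v b) (hc : G.Adj v c) (hd : G.Adj v d)
    (hab : a ≠ b) (hac : a ≠ c) (had : a ≠ d) (hbc : b ≠ c) (hbd : b ≠ d) (hcd : c ≠ d) :
    False := by
  classical
  have hsub : (({a, b, c, d} : Finset V) : Set V) ⊆ G.neighborSet v := by
    intro x hx
    simp only [coe_insert, coe_singleton, Set.mem_insert_iff, Set.mem_singleton_iff] at hx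
    rcases hx with rfl | rfl | rfl | rfl <;> assumption
  have h1 := Set.ncard_le_ncard hsub (Set.toFinite _)
  rw [Set.ncard_coe_finset] at h1
  have h2 : ({a, b, c, d} : Finset V).card = 4 := by
    rw [Finset.card_insert_of_notMem (by simp [hab, hac, had]),
      Finset.card_insert_of_notMem (by simp [hbc, hbd]),
      Finset.card_insert_of_notMem (by simp [hcd]), Finset.card_singleton]
  omega

theorem t_CAT : S_CAT := by
  classical
  rintro n T hn ⟨m, ⟨φ⟩⟩
  have hfin : Finite T.V := T.finite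
  have h1 : ∀ i, (T.G.neighborSet (T.leaf i)).ncard = 1 := fun i => (T.isLeaf _).1 ⟨i, rfl⟩
  have h3 : ∀ v, (T.G.neighborSet v).ncard ≤ 3 := fun v => by
    rcases T.degree v with h | h <;> omega
  have h2 : ∀ i, ∃ v, T.G.neighborSet (T.leaf i) = {v} := fun i => Set.ncard_eq_one.1 (h1 i)
  choose nb hnb using h2
  have adj_nb : ∀ i, T.G.Adj (T.leaf i) (nb i) := fun i => by
    have : nb i ∈ T.G.neighborSet (T.leaf i) := by rw [hnb]; rfl
    exact this
  have uniq : ∀ i v, T.G.Adj (T.leaf i) v → v = nb i := fun i v hv => by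
    have : v ∈ T.G.neighborSet (T.leaf i) := hv
    rw [hnb] at this
    exact this
  have inner : ∀ i j, T.leaf j ≠ nb i := by
    intro i j hj
    have hij : T.G.Adj (T.leaf i) (T.leaf j) := by rw [hj]; exact adj_nb i
    have hji : nb j = T.leaf i := (uniq j _ hij.symm).symm
    have hclosed : ∀ x y (w : T.G.Walk x y), (x = T.leaf i ∨ x = T.leaf j) →
        (y = T.leaf i ∨ y = T.leaf j) := by
      intro x y w
      induction w with
      | nil => exact id
      | @cons x z y hadj w ih =>
        intro hx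
        apply ih
        rcases hx with hx | hx
        · right; rw [hj]; exact uniq i z (by rw [← hx]; exact hadj)
        · left; rw [← hji]; exact uniq j z (by rw [← hx]; exact hadj)
    obtain ⟨k, -, hk⟩ : ∃ k ∈ (univ : Finset (Fin n)), k ∉ ({i, j} : Finset (Fin n)) := by
      apply Finset.exists_mem_notMem_of_card_lt_card
      have := Finset.card_le_two (a := i) (b := j)
      rw [card_univ, Fintype.card_fin]
      omega
    simp only [mem_insert, mem_singleton, not_or] at hk
    obtain ⟨w⟩ := T.isTree.1.preconnected (T.leaf i) (T.leaf k)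
    rcases hclosed _ _ w (Or.inl rfl) with h | h
    · exact hk.1 (T.leaf_inj h)
    · exact hk.2 (T.leaf_inj h)
  let idx : Fin n → Fin m := fun i => φ ⟨nb i, fun j => inner i j⟩
  have hidx : ∀ i, (φ.symm (idx i)).1 = nb i := fun i => by
    simp only [idx, RelIso.symm_apply_apply]
  have hadjs : ∀ k l : Fin m, (k : ℕ) + 1 = l → T.G.Adj (φ.symm k).1 (φ.symm l).1 := by
    intro k l hkl
    have : (T.G.induce {v | ∀ i, T.leaf i ≠ v}).Adj (φ.symm k) (φ.symm l) := by
      rw [φ.symm.map_adj_iff, SimpleGraph.pathGraph_adj]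
      left; exact hkl
    exact this
  have notleaf : ∀ (k : Fin m) i, T.leaf i ≠ (φ.symm k).1 := fun k i => (φ.symm k).2 i
  have spinj : ∀ k l : Fin m, k ≠ l → (φ.symm k).1 ≠ (φ.symm l).1 := fun k l h h' =>
    h (φ.symm.injective (Subtype.ext h'))
  have adjl : ∀ i, T.G.Adj (φ.symm (idx i)).1 (T.leaf i) := fun i => by
    rw [hidx]; exact (adj_nb i).symm
  have F2 : ∀ i j, i ≠ j → idx i = idx j → (idx i : ℕ) = 0 ∨ (idx i : ℕ) = m - 1 := by
    intro i j hij he
    by_contra hcon
    push Not at hcon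
    have hlt := (idx i).2
    have hk1 : (idx i : ℕ) - 1 < m := by omega
    have hk2 : (idx i : ℕ) + 1 < m := by omega
    refine four T.G (φ.symm (idx i)).1 (h3 _) (T.leaf i) (T.leaf j)
      (φ.symm ⟨(idx i : ℕ) - 1, hk1⟩).1 (φ.symm ⟨(idx i : ℕ) + 1, hk2⟩).1 (adjl i)
      (by rw [he]; exact adjl j) (hadjs _ _ (by simp only; omega)).symm (hadjs _ _ rfl)
      (fun h => hij (T.leaf_inj h)) (notleaf _ _) (notleaf _ _) (notleaf _ _) (notleaf _ _)
      (spinj _ _ ?_)
    intro h
    rw [Fin.mk.injEq] at h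
    omega
  have F3 : ∀ i j l, i ≠ j → i ≠ l → j ≠ l → idx i = idx j → idx i = idx l → False := by
    intro i j l hij hil hjl he he'
    have hlt := (idx i).2
    by_cases hk2 : (idx i : ℕ) + 1 < m
    · exact four T.G (φ.symm (idx i)).1 (h3 _) (T.leaf i) (T.leaf j) (T.leaf l)
        (φ.symm ⟨(idx i : ℕ) + 1, hk2⟩).1 (adjl i) (by rw [he]; exact adjl j)
        (by rw [he']; exact adjl l) (hadjs _ _ rfl)
        (fun h => hij (T.leaf_inj h)) (fun h => hil (T.leaf_inj h)) (notleaf _ _)
        (fun h => hjl (T.leaf_inj h)) (notleaf _ _) (notleaf _ _)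
    · by_cases hk1 : 1 ≤ (idx i : ℕ)
      · exact four T.G (φ.symm (idx i)).1 (h3 _) (T.leaf i) (T.leaf j) (T.leaf l)
          (φ.symm ⟨(idx i : ℕ) - 1, by omega⟩).1 (adjl i) (by rw [he]; exact adjl j)
          (by rw [he']; exact adjl l) (hadjs _ _ (by simp only; omega)).symm
          (fun h => hij (T.leaf_inj h)) (fun h => hil (T.leaf_inj h)) (notleaf _ _)
          (fun h => hjl (T.leaf_inj h)) (notleaf _ _) (notleaf _ _)
      · obtain ⟨k, -, hk⟩ : ∃ k ∈ (univ : Finset (Fin n)), k ∉ ({i, j, l} : Finset (Fin n)) := by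
          apply Finset.exists_mem_notMem_of_card_lt_card
          have := Finset.card_le_three (a := i) (b := j) (c := l)
          rw [card_univ, Fintype.card_fin]
          omega
        simp only [mem_insert, mem_singleton, not_or] at hk
        have hek : idx i = idx k := by
          apply Fin.ext
          have := (idx k).2
          omega
        exact four T.G (φ.symm (idx i)).1 (h3 _) (T.leaf i) (T.leaf j) (T.leaf l) (T.leaf k)
          (adjl i) (by rw [he]; exact adjl j) (by rw [he']; exact adjl l)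
          (by rw [hek]; exact adjl k)
          (fun h => hij (T.leaf_inj h)) (fun h => hil (T.leaf_inj h))
          (fun h => hk.1 (T.leaf_inj h).symm) (fun h => hjl (T.leaf_inj h))
          (fun h => hk.2.1 (T.leaf_inj h).symm) (fun h => hk.2.2 (T.leaf_inj h).symm)
  have F4 : ∀ k : ℕ, ∃ x : Fin n, ∀ i j, i ≠ x → j ≠ x → (idx i : ℕ) = k → (idx j : ℕ) = k →
      i = j := by
    intro k
    by_cases hx : ∃ x, (idx x : ℕ) = k
    · obtain ⟨x, hx⟩ := hx
      refine ⟨x, fun i j hi hj hik hjk => ?_⟩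
      by_contra hij
      exact F3 i j x hij hi hj (Fin.ext (by omega)) (Fin.ext (by omega))
    · push Not at hx
      exact ⟨⟨0, by omega⟩, fun i j _ _ hik _ => absurd hik (hx i)⟩
  obtain ⟨x0, hx0⟩ := F4 0
  obtain ⟨x1, hx1⟩ := F4 (m - 1)
  -- walks
  have W : ∀ (d : ℕ) (k l : Fin m), (k : ℕ) + d = l →
      ∃ w : T.G.Walk (φ.symm k).1 (φ.symm l).1, ∀ v ∈ w.support,
        ∃ u : Fin m, k ≤ u ∧ u ≤ l ∧ v = (φ.symm u).1 := by
    intro d
    induction d with
    | zero =>
      intro k l hkl
      have : k = l := Fin.ext (by omega)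
      subst this
      refine ⟨SimpleGraph.Walk.nil, ?_⟩
      intro v hv
      rw [SimpleGraph.Walk.support_nil, List.mem_singleton] at hv
      exact ⟨k, le_refl _, le_refl _, hv⟩
    | succ d ih =>
      intro k l hkl
      have hlt := l.2
      obtain ⟨w, hw⟩ := ih ⟨(k : ℕ) + 1, by omega⟩ l (by simp only; omega)
      refine ⟨SimpleGraph.Walk.cons (hadjs k ⟨(k : ℕ) + 1, by omega⟩ rfl) w, ?_⟩
      intro v hv
      rw [SimpleGraph.Walk.support_cons, List.mem_cons] at hv
      rcases hv with rfl | hv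
      · exact ⟨k, le_refl _, by rw [Fin.le_def]; omega, rfl⟩
      · obtain ⟨u, hu1, hu2, hu3⟩ := hw v hv
        rw [Fin.le_def] at hu1
        simp only at hu1
        exact ⟨u, by rw [Fin.le_def]; omega, hu2, hu3⟩
  have W1 : ∀ a b : Fin n, idx a ≤ idx b → ∃ w : T.G.Walk (T.leaf a) (T.leaf b),
      ∀ v ∈ w.support, v = T.leaf a ∨ v = T.leaf b ∨
        ∃ u : Fin m, v = (φ.symm u).1 ∧ idx a ≤ u ∧ u ≤ idx b := by
    intro a b hab
    obtain ⟨w, hw⟩ := W ((idx b : ℕ) - idx a) (idx a) (idx b) (by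
      rw [Fin.le_def] at hab; omega)
    refine ⟨SimpleGraph.Walk.cons (adjl a).symm
      (w.append (SimpleGraph.Walk.cons (adjl b) SimpleGraph.Walk.nil)), ?_⟩
    intro v hv
    rw [SimpleGraph.Walk.support_cons, List.mem_cons, SimpleGraph.Walk.mem_support_append_iff,
      SimpleGraph.Walk.support_cons, List.mem_cons, SimpleGraph.Walk.support_nil,
      List.mem_singleton] at hv
    rcases hv with hv | hv | hv | hv
    · exact Or.inl hv
    · obtain ⟨u, hu1, hu2, hu3⟩ := hw v hv
      exact Or.inr (Or.inr ⟨u, hu3, hu1, hu2⟩)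
    · exact Or.inr (Or.inr ⟨idx b, hv, hab, le_refl _⟩)
    · exact Or.inr (Or.inl hv)
  have W2 : ∀ a b : Fin n, ∃ w : T.G.Walk (T.leaf a) (T.leaf b),
      ∀ v ∈ w.support, v = T.leaf a ∨ v = T.leaf b ∨
        ∃ u : Fin m, v = (φ.symm u).1 ∧ ((idx a ≤ u ∧ u ≤ idx b) ∨ (idx b ≤ u ∧ u ≤ idx a)) := by
    intro a b
    rcases le_total (idx a) (idx b) with hab | hab
    · obtain ⟨w, hw⟩ := W1 a b hab
      refine ⟨w, fun v hv => ?_⟩
      rcases hw v hv with h | h | ⟨u, h, h'⟩
      · exact Or.inl h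
      · exact Or.inr (Or.inl h)
      · exact Or.inr (Or.inr ⟨u, h, Or.inl h'⟩)
    · obtain ⟨w, hw⟩ := W1 b a hab
      refine ⟨w.reverse, fun v hv => ?_⟩
      rw [SimpleGraph.Walk.support_reverse, List.mem_reverse] at hv
      rcases hw v hv with h | h | ⟨u, h, h'⟩
      · exact Or.inr (Or.inl h)
      · exact Or.inl h
      · exact Or.inr (Or.inr ⟨u, h, Or.inr h'⟩)
  have S : ∀ (A : Finset (Fin n)) (v : T.V), v ∈ T.span A → (∃ a ∈ A, v = T.leaf a) ∨
      ∃ u : Fin m, v = (φ.symm u).1 ∧ ∃ a ∈ A, ∃ b ∈ A, a ≠ b ∧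
        ((idx a ≤ u ∧ u ≤ idx b) ∨ (idx b ≤ u ∧ u ≤ idx a)) := by
    rintro A v ⟨a, ha, b, hb, p, hp, hv⟩
    by_cases hab : a = b
    · subst hab
      have h := T.isTree.2.path_unique ⟨p, hp⟩ ⟨SimpleGraph.Walk.nil, SimpleGraph.Walk.IsPath.nil⟩
      have h' : p = SimpleGraph.Walk.nil := congrArg Subtype.val h
      rw [h', SimpleGraph.Walk.support_nil, List.mem_singleton] at hv
      exact Or.inl ⟨a, ha, hv⟩
    · obtain ⟨w, hw⟩ := W2 a b
      have h := T.isTree.2.path_unique ⟨p, hp⟩ ⟨w.bypass, w.bypass_isPath⟩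
      have h' : p = w.bypass := congrArg Subtype.val h
      rw [h'] at hv
      have hv' := w.support_bypass_subset_support hv
      rcases hw v hv' with h | h | ⟨u, h, h'⟩
      · exact Or.inl ⟨a, ha, h⟩
      · exact Or.inl ⟨b, hb, h⟩
      · exact Or.inr ⟨u, h, a, ha, b, hb, hab, h'⟩
  refine ⟨fun i => (idx i : ℕ), (univ.erase x0).erase x1, ?_, ?_, ?_⟩
  · have e1 := Finset.pred_card_le_card_erase (s := (univ : Finset (Fin n))) (a := x0)
    have e2 := Finset.pred_card_le_card_erase (s := (univ : Finset (Fin n)).erase x0) (a := x1)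
    rw [card_univ, Fintype.card_fin] at e1
    omega
  · intro i hi j hj hij
    simp only [coe_erase, coe_univ, Set.mem_sdiff, Set.mem_univ, Set.mem_singleton_iff,
      true_and] at hi hj
    by_contra hne
    simp only at hij
    rcases F2 i j hne (Fin.ext hij) with h | h
    · exact hne (hx0 i j hi.1 hj.1 h (by omega))
    · exact hne (hx1 i j hi.2 hj.2 h (by omega))
  · intro P hP A hA B hB hAB
    rw [Set.disjoint_left]
    intro v hvA hvB
    have hdis : Disjoint A B := P.disjoint hA hB hAB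
    rcases S A v hvA with ⟨a, ha, hva⟩ | ⟨u, hu, a, ha, a', ha', haa, hau⟩
    · rcases S B v hvB with ⟨b, hb, hvb⟩ | ⟨u', hu', _⟩
      · have : a = b := T.leaf_inj (hva ▸ hvb)
        subst this
        exact Finset.disjoint_left.1 hdis ha hb
      · exact notleaf u' a (by rw [← hva, hu'])
    · rcases S B v hvB with ⟨b, hb, hvb⟩ | ⟨u', hu', b, hb, b', hb', hbb, hbu⟩
      · exact notleaf u b (by rw [← hvb, hu])
      · have huu : u = u' := by
          by_contra hne
          exact spinj u u' hne (by rw [← hu, ← hu'])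
        subst huu
        have hcA : 2 ≤ A.card := by
          have : 1 < A.card := Finset.one_lt_card.2 ⟨a, ha, a', ha', haa⟩
          omega
        have hcB : 2 ≤ B.card := by
          have : 1 < B.card := Finset.one_lt_card.2 ⟨b, hb, b', hb', hbb⟩
          omega
        simp only [Fin.le_def] at hau hbu
        rcases hP A hA B hB hAB hcA hcB with hs | hs
        · have e1 := hs a ha b hb
          have e2 := hs a ha b' hb'
          have e3 := hs a' ha' b hb
          have e4 := hs a' ha' b' hb'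
          simp only at e1 e2 e3 e4
          omega
        · have e1 := hs a ha b hb
          have e2 := hs a ha b' hb'
          have e3 := hs a' ha' b hb
          have e4 := hs a' ha' b' hb'
          simp only at e1 e2 e3 e4
          omega

end Pool.Agent.V7H39.CC
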